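import Pool.Agent.Helper359_SD.Space

/-!
# Pointwise function spaces into a strong d-space need not be strong d-spaces

The space `Y` is described in `Pool/Agent/Results/MP_e2e219_gt/SquareFails.lean`. The function space
`Top₀(X, Y)` fails to be a strong d-space for every space `X` which is not connected, for example
for the discrete space with two points.
-/

set_option autoImplicit false

open Set Topology

namespace Pool.Agent.Results.MP_5f2357_gt.DisconnectedDomain

open Pool.Agent.Helper359_SD

universe u

/-- There is a strong d-space `Y` such that, for every `T₀` space `X` which is not connected (for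
example the discrete space with two points), the space of continuous maps `X → Y` with the topology
of pointwise convergence is not a strong d-space. -/
theorem result : ∃ (Y : Type) (_ : TopologicalSpace Y), StrongD Y ∧
    (¬ StrongD {f : Bool → Y // Continuous f}) ∧
    ∀ (X : Type u) [TopologicalSpace X] [T0Space X], ¬ PreconnectedSpace X →
      ¬ StrongD {f : X → Y // Continuous f} := by
  classical
  obtain ⟨F, hF, hd, hne⟩ := exists_families
  refine ⟨Pt {C : Set ℕ // C.Infinite}, Pt.top F,
    Pt.strongD F hF fun b C hC => ⟨⟨C, hC⟩, hd b ⟨C, hC⟩⟩, ?_, ?_⟩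
  · let _ := Pt.top F
    exact Pt.not_strongD F hF hne
      (Subtype.val : {f : Bool → Pt {C : Set ℕ // C.Infinite} // Continuous f} → _)
      IsInducing.subtypeVal id false true rfl rfl
      (fun n => ⟨⟨fun _ => Pt.d n, continuous_const⟩, rfl⟩)
      (fun n => ⟨⟨fun _ => Pt.e n, continuous_const⟩, rfl⟩)
      ⟨⟨fun i => Pt.x i, continuous_of_discreteTopology⟩, rfl⟩
  · intro X _ _ hX
    let _ := Pt.top F
    -- a nontrivial clopen set
    obtain ⟨A, hA, i₀, hi₀, j₀, hj₀⟩ : ∃ A : Set X, IsClopen A ∧ ∃ i ∈ A, ∃ j, j ∉ A := by
      by_contra hcon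
      push Not at hcon
      apply hX
      rw [preconnectedSpace_iff_clopen]
      intro s hs
      rcases s.eq_empty_or_nonempty with h | ⟨i, hi⟩
      · exact Or.inl h
      · exact Or.inr (eq_univ_of_forall (hcon s hs i hi))
    have hχ : Continuous fun i => decide (i ∉ A) := by
      refine (IsLocallyConstant.iff_exists_open _).2 (fun i => ?_) |>.continuous
      by_cases hi : i ∈ A
      · exact ⟨A, hA.2, hi, fun j hj => by simp [hi, hj]⟩
      · exact ⟨Aᶜ, hA.1.isOpen_compl, hi, fun j hj => by
          have : j ∉ A := hj
          simp [hi, this]⟩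
    exact Pt.not_strongD F hF hne
      (Subtype.val : {f : X → Pt {C : Set ℕ // C.Infinite} // Continuous f} → _)
      IsInducing.subtypeVal (fun i => decide (i ∉ A)) i₀ j₀ (by simpa using hi₀)
      (by simpa using hj₀)
      (fun n => ⟨⟨fun _ => Pt.d n, continuous_const⟩, rfl⟩)
      (fun n => ⟨⟨fun _ => Pt.e n, continuous_const⟩, rfl⟩)
      ⟨⟨fun i => Pt.x (decide (i ∉ A)), continuous_of_discreteTopology.comp hχ⟩, rfl⟩

end Pool.Agent.Results.MP_5f2357_gt.DisconnectedDomain
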